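import Pool.Agent.Helper23.MV.StP
import Pool.Agent.Helper15.AB.M_WE

/-!
# Project MV: module FSX (primes of size `√X` in intervals of length up to `√X`)
-/

set_option autoImplicit false

namespace Pool.Agent.Helper12.MV

open Finset ArithmeticFunction
open Pool.Agent.Helper23.MV
open Pool.Agent.Helper48.BK (th)
open Pool.Agent.Helper15.AB (IsW)

/-! ### partial summation -/

private theorem psum_fsx (a : ℕ → ℂ) (f : ℕ → ℝ) (x l : ℕ) :
    ∑ m ∈ Ioc x (x + l), a m * (f m : ℂ) =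
      (f (x + l) : ℂ) * ∑ m ∈ Ioc x (x + l), a m -
        ∑ j ∈ range l, ((f (x + j + 1) - f (x + j) : ℝ) : ℂ) * ∑ m ∈ Ioc x (x + j), a m := by
  induction l with
  | zero => simp
  | succ l ih =>
    have h : Ioc x (x + (l + 1)) = insert (x + l + 1) (Ioc x (x + l)) := by
      ext m
      simp only [Finset.mem_Ioc, Finset.mem_insert]
      omega
    have hn : x + l + 1 ∉ Ioc x (x + l) := by simp
    rw [h, Finset.sum_insert hn, Finset.sum_insert hn, ih, Finset.sum_range_succ]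
    have e : x + (l + 1) = x + l + 1 := by ring
    rw [e]
    push_cast
    ring

private theorem psum_bd_fsx (a : ℕ → ℂ) (f : ℕ → ℝ) (x l : ℕ) (M K B : ℝ)
    (hS : ∀ j ≤ l, ‖∑ m ∈ Ioc x (x + j), a m‖ ≤ M) (hB : |f (x + l)| ≤ B)
    (hK : ∀ j < l, |f (x + j + 1) - f (x + j)| ≤ K) :
    ‖∑ m ∈ Ioc x (x + l), a m * (f m : ℂ)‖ ≤ M * (B + l * K) := by
  rw [psum_fsx]
  refine (norm_sub_le _ _).trans ?_
  have h1 : ‖(f (x + l) : ℂ) * ∑ m ∈ Ioc x (x + l), a m‖ ≤ B * M := by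
    rw [norm_mul, Complex.norm_real, Real.norm_eq_abs]
    exact mul_le_mul hB (hS l le_rfl) (norm_nonneg _) ((abs_nonneg _).trans hB)
  have h2 : ‖∑ j ∈ range l, ((f (x + j + 1) - f (x + j) : ℝ) : ℂ) *
      ∑ m ∈ Ioc x (x + j), a m‖ ≤ l * (K * M) := by
    calc _ ≤ ∑ j ∈ range l, ‖((f (x + j + 1) - f (x + j) : ℝ) : ℂ) *
          ∑ m ∈ Ioc x (x + j), a m‖ := norm_sum_le _ _
      _ ≤ ∑ j ∈ range l, K * M := by
          refine Finset.sum_le_sum fun j hj => ?_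
          rw [Finset.mem_range] at hj
          rw [norm_mul, Complex.norm_real, Real.norm_eq_abs]
          exact mul_le_mul (hK j hj) (hS j hj.le) (norm_nonneg _) ((abs_nonneg _).trans (hK j hj))
      _ = l * (K * M) := by rw [Finset.sum_const, Finset.card_range, nsmul_eq_mul]
  calc _ ≤ B * M + l * (K * M) := add_le_add h1 h2
    _ = M * (B + l * K) := by ring

/-! ### the weight -/

private theorem lip_fsx (w : ℝ → ℝ) (hw : IsW w) : ∃ K : ℝ, 0 ≤ K ∧ ∀ s t, |w s - w t| ≤ K * |s - t| := by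
  have hc : HasCompactSupport w :=
    HasCompactSupport.intro isCompact_Icc (fun t ht => hw.supp t ht)
  obtain ⟨K, hK⟩ := hw.smooth.lipschitzWith_of_hasCompactSupport hc (by norm_num)
  refine ⟨K, K.2, fun s t => ?_⟩
  have := hK.dist_le_mul s t
  rwa [Real.dist_eq, Real.dist_eq] at this

/-- the increments of `m / w(log(m/X))` -/
private theorem incr_fsx (w : ℝ → ℝ) (hw : IsW w) (K : ℝ) (hK0 : 0 ≤ K)
    (hK : ∀ s t, |w s - w t| ≤ K * |s - t|) (Y : ℝ) (hY : 0 < Y) (m : ℕ) (hm : 1 ≤ m)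
    (h1 : Real.log (m / Y) ∈ Set.Icc (0.1 : ℝ) 0.9)
    (h2 : Real.log ((m + 1 : ℕ) / Y) ∈ Set.Icc (0.1 : ℝ) 0.9) :
    |((m + 1 : ℕ) : ℝ) / w (Real.log ((m + 1 : ℕ) / Y)) - (m : ℝ) / w (Real.log (m / Y))| ≤
      (1 + K) * 10 ^ 6 := by
  have hm0 : (0 : ℝ) < m := by exact_mod_cast hm
  set u := w (Real.log (m / Y)) with hu
  set v := w (Real.log ((m + 1 : ℕ) / Y)) with hv
  have hu1 : (0.001 : ℝ) ≤ u := hw.lower _ h1
  have hv1 : (0.001 : ℝ) ≤ v := hw.lower _ h2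
  have hu2 : u ≤ 1 := hw.le_one _
  have hv2 : v ≤ 1 := hw.le_one _
  have hlog : |Real.log ((m + 1 : ℕ) / Y) - Real.log (m / Y)| ≤ 1 / m := by
    have hm1 : (0 : ℝ) < ((m + 1 : ℕ) : ℝ) := by positivity
    rw [Real.log_div hm1.ne' hY.ne', Real.log_div hm0.ne' hY.ne', sub_sub_sub_cancel_right,
      ← Real.log_div hm1.ne' hm0.ne']
    have e : ((m + 1 : ℕ) : ℝ) / m = 1 + 1 / m := by
      push_cast; field_simp
    rw [e, abs_of_nonneg (Real.log_nonneg (by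
      have : 0 ≤ 1 / (m : ℝ) := by positivity
      linarith))]
    have := Real.log_le_sub_one_of_pos (show 0 < 1 + 1 / (m : ℝ) by positivity)
    linarith
  have huv : |u - v| ≤ K / m := by
    have h := hK (Real.log (m / Y)) (Real.log ((m + 1 : ℕ) / Y))
    rw [abs_sub_comm (Real.log (m / Y))] at h
    calc |u - v| ≤ K * |Real.log ((m + 1 : ℕ) / Y) - Real.log (m / Y)| := h
      _ ≤ K * (1 / m) := mul_le_mul_of_nonneg_left hlog hK0
      _ = K / m := by ring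
  have huv0 : 0 < u * v := by positivity
  have huv6 : (1 / 10 ^ 6 : ℝ) ≤ u * v := by nlinarith
  have e2 : ((m + 1 : ℕ) : ℝ) / v - (m : ℝ) / u = (u + m * (u - v)) / (u * v) := by
    have hu0 : u ≠ 0 := by linarith
    have hv0 : v ≠ 0 := by linarith
    push_cast
    field_simp
    ring
  rw [e2, abs_div, abs_of_pos huv0, div_le_iff₀ huv0]
  have h3 : |u + m * (u - v)| ≤ 1 + K := by
    refine (abs_add_le _ _).trans ?_
    rw [abs_mul, abs_of_pos hm0, abs_of_nonneg (by linarith : (0 : ℝ) ≤ u)]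
    have : (m : ℝ) * |u - v| ≤ m * (K / m) := mul_le_mul_of_nonneg_left huv hm0.le
    rw [mul_div_cancel₀ _ hm0.ne'] at this
    linarith
  calc |u + m * (u - v)| ≤ 1 + K := h3
    _ ≤ (1 + K) * 10 ^ 6 * (1 / 10 ^ 6) := by
        rw [mul_assoc]; norm_num
    _ ≤ (1 + K) * 10 ^ 6 * (u * v) := mul_le_mul_of_nonneg_left huv6 (by positivity)

/-! ### prime powers -/

private theorem pp_fsx (c : PCh) (x l : ℕ) (Cψ : ℝ)
    (hψ : ∀ y : ℝ, Chebyshev.psi y - Chebyshev.theta y ≤ Cψ * √y) :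
    ‖∑ n ∈ Ioc x (x + l), (((Λ n - th n : ℝ)) : ℂ) * c.ev n‖ ≤ Cψ * √((x + l : ℕ) : ℝ) := by
  refine (norm_sum_le _ _).trans ?_
  have h0 : ∀ n : ℕ, 0 ≤ Λ n - th n := by
    intro n
    unfold th
    by_cases hp : n.Prime
    · rw [if_pos hp, ArithmeticFunction.vonMangoldt_apply_prime hp, sub_self]
    · rw [if_neg hp, sub_zero]; exact ArithmeticFunction.vonMangoldt_nonneg
  have h1 : ∀ n : ℕ, ‖(((Λ n - th n : ℝ)) : ℂ) * c.ev n‖ ≤ Λ n - th n := by
    intro n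
    rw [norm_mul, Complex.norm_real, Real.norm_of_nonneg (h0 n)]
    exact mul_le_of_le_one_right (h0 n) (DirichletCharacter.norm_le_one c.χ _)
  refine (Finset.sum_le_sum fun n _ => h1 n).trans ?_
  have h2 : ∑ n ∈ Ioc x (x + l), (Λ n - th n) ≤ ∑ n ∈ Ioc 0 (x + l), (Λ n - th n) := by
    refine Finset.sum_le_sum_of_subset_of_nonneg ?_ (fun n _ _ => h0 n)
    intro n hn
    rw [Finset.mem_Ioc] at hn ⊢
    omega
  have h3 : ∑ n ∈ Ioc 0 (x + l), (Λ n - th n) =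
      Chebyshev.psi ((x + l : ℕ) : ℝ) - Chebyshev.theta ((x + l : ℕ) : ℝ) := by
    rw [Chebyshev.psi_sub_theta_eq_sum_not_prime, Nat.floor_natCast, Finset.sum_filter]
    refine Finset.sum_congr rfl fun n _ => ?_
    unfold th
    by_cases hp : n.Prime
    · rw [if_pos hp, if_neg (not_not.mpr hp), ArithmeticFunction.vonMangoldt_apply_prime hp,
        sub_self]
    · rw [if_neg hp, if_pos hp, sub_zero]
  rw [h3] at h2
  exact h2.trans (hψ _)

/-! ### the sum over the zeros -/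

private theorem zs_mono_fsx (hFin : StFin) (o : Option (PCh × ℝ)) (c : PCh) (η T T' Y Y' : ℝ)
    (hη : η ≤ 1 / 2) (hT : T ≤ T') (hY : 0 < Y') (hYY : Y' ≤ Y) :
    ZS o c η T Y ≤ ZS o c η T' Y' := by
  classical
  obtain ⟨-, hF2, hF3⟩ := hFin
  unfold ZS
  have hYp : 0 < Y := lt_of_lt_of_le hY hYY
  have hsub : Zex o c η T ⊆ Zex o c η T' := by
    unfold Zex
    apply Finset.filter_subset_filter
    intro ρ hρ
    rw [hF2 c η T ρ hη] at hρ
    rw [hF2 c η T' ρ hη]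
    exact ⟨hρ.1, hρ.2.1, hρ.2.2.trans hT⟩
  calc ∑ ρ ∈ Zex o c η T, (mz c ρ : ℝ) * Y ^ (ρ.re - 1)
      ≤ ∑ ρ ∈ Zex o c η T, (mz c ρ : ℝ) * Y' ^ (ρ.re - 1) := by
        refine Finset.sum_le_sum fun ρ hρ => ?_
        have hρ' : ρ ∈ ZF c η T := by
          unfold Zex at hρ
          exact (Finset.mem_filter.mp hρ).1
        rw [hF2 c η T ρ hη] at hρ'
        have hlt := (hF3 c ρ hρ'.1 (by linarith [hρ'.2.1])).1
        apply mul_le_mul_of_nonneg_left _ (Nat.cast_nonneg _)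
        exact Real.rpow_le_rpow_of_nonpos hY hYY (by linarith)
    _ ≤ _ := by
        refine Finset.sum_le_sum_of_subset_of_nonneg hsub fun ρ _ _ => ?_
        positivity

private theorem zs_nonneg_fsx (o : Option (PCh × ℝ)) (c : PCh) (η T Y : ℝ) (hY : 0 < Y) :
    0 ≤ ZS o c η T Y := by
  unfold ZS
  refine Finset.sum_nonneg fun ρ _ => ?_
  positivity

private theorem fin_fsx (A B D u v : ℝ) (hA : 0 ≤ A) (hB : 0 ≤ B) (hD : 0 ≤ D) (hu : 0 ≤ u)
    (hv : 0 ≤ v) : A * u + (B + D) * v ≤ (A + B + D + 1) * (u + v) := by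
  nlinarith [mul_nonneg hA hv, mul_nonneg hB hu, mul_nonneg hD hu]

/-! ### the theorem -/

theorem hFsx (hFin : StFin) (hSpa : StSpa) (hShc : StShc) : StFs := by
  classical
  obtain ⟨w, hw⟩ := Pool.Agent.Helper15.AB.hWE
  obtain ⟨K, hK0, hK⟩ := lip_fsx w hw
  obtain ⟨Cψ, hψ⟩ := Chebyshev.psi_sub_theta_le_mul_sqrt
  obtain ⟨Cs, hCs, η₁, hη₁, hη₁', hspa⟩ := hSpa w hw
  obtain ⟨Ch, hCh, hshc⟩ := hShc w hw
  refine ⟨η₁, hη₁, hη₁', fun η hη hηle => ?_⟩
  obtain ⟨Y0, hY0, hspa⟩ := hspa η hη hηle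
  have hη100 : η ≤ 1 / 100 := hηle.trans hη₁'
  obtain ⟨Cp, hCp⟩ : ∃ Cp : ℝ, Cp = (2 + K) * 10 ^ 6 := ⟨_, rfl⟩
  have hCp0 : 0 < Cp := by rw [hCp]; positivity
  refine ⟨2 * Cp * Cs + Cp * (4 + Ch) * (200 / (3 * η)) + 2 * |Cψ| + 1, max ((Y0 : ℝ) ^ 2) 100,
    ?_, ?_, ?_⟩
  · have : 0 ≤ 2 * Cp * Cs + Cp * (4 + Ch) * (200 / (3 * η)) + 2 * |Cψ| := by positivity
    linarith
  · exact le_trans (by norm_num) (le_max_right _ _)
  intro X o c x l hX hOK hr hx hxl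
  have hX100 : (100 : ℝ) ≤ X := le_trans (le_max_right _ _) hX
  have hXY0 : (Y0 : ℝ) ^ 2 ≤ X := le_trans (le_max_left _ _) hX
  have hX100' : 100 ≤ X := by exact_mod_cast hX100
  have hXpos : (0 : ℝ) < X := by linarith
  -- `H` and `X1`
  have hH1 : Nat.sqrt X * Nat.sqrt X ≤ X := Nat.sqrt_le X
  have hH2 : X < (Nat.sqrt X + 1) * (Nat.sqrt X + 1) := Nat.lt_succ_sqrt X
  generalize Nat.sqrt X = H at hH1 hH2 hx hxl
  have hH10 : 10 ≤ H := by
    by_contra hcon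
    have : H + 1 ≤ 10 := by omega
    have : (H + 1) * (H + 1) ≤ 10 * 10 := Nat.mul_le_mul this this
    omega
  obtain ⟨X1, hX1def⟩ : ∃ X1 : ℕ, X1 = 9 * H / 5 := ⟨_, rfl⟩
  have hX1a : 5 * X1 ≤ 9 * H := by omega
  have hX1b : 9 * H < 5 * X1 + 5 := by omega
  have hX1H : H + 1 ≤ X1 := by omega
  have hX1c : 3 * H ≤ 2 * X1 := by omega
  have hX1X : X1 ≤ X := by
    have : 10 * H ≤ H * H := Nat.mul_le_mul_right _ hH10
    omega
  have hHr : (0 : ℝ) < H := by exact_mod_cast (by omega : 0 < H)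
  have hX1r : (0 : ℝ) < X1 := by exact_mod_cast (by omega : 0 < X1)
  have hX1one : (1 : ℝ) ≤ X1 := by exact_mod_cast (by omega : 1 ≤ X1)
  have hHsq : (H : ℝ) ≤ √(X : ℝ) := by
    apply Real.le_sqrt_of_sq_le
    have : (H : ℝ) * H ≤ X := by exact_mod_cast hH1
    nlinarith
  have hsqX1 : √(X : ℝ) ≤ X1 := by
    have h1 : √(X : ℝ) < H + 1 := by
      rw [Real.sqrt_lt' (by positivity)]
      have : (X : ℝ) < (H + 1) * (H + 1) := by exact_mod_cast hH2
      nlinarith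
    have h2 : ((H + 1 : ℕ) : ℝ) ≤ X1 := by exact_mod_cast hX1H
    push_cast at h2
    linarith
  have hY0X1 : Y0 ≤ X1 := by
    have h1 : (Y0 : ℝ) ≤ √(X : ℝ) := Real.le_sqrt_of_sq_le hXY0
    exact_mod_cast h1.trans hsqX1
  have hsqpos : 0 < √(X : ℝ) := Real.sqrt_pos.mpr hXpos
  have hsqrpow : √(X : ℝ) = (X : ℝ) ^ (1 / 2 : ℝ) := Real.sqrt_eq_rpow _
  -- exceptional data
  have hOKb : OKb o η := by
    intro e δ h
    obtain ⟨h1, -, h3, h4, h5, h6⟩ := hOK e δ h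
    exact ⟨h1, h3, h4, h5, h6⟩
  have hOKb1 : OKb o 1 := by
    intro e δ h
    obtain ⟨h1, -, h3, h4, h5, h6⟩ := hOK e δ h
    exact ⟨h1, h3, by linarith, h5, h6⟩
  have hcond : (c.r : ℝ) ≤ (X1 : ℝ) ^ (η / 400) := by
    calc (c.r : ℝ) ≤ (X : ℝ) ^ (η / 1000) := hr
      _ ≤ (X : ℝ) ^ ((1 / 2 : ℝ) * (η / 400)) :=
          Real.rpow_le_rpow_of_exponent_le (by linarith) (by linarith)
      _ = (√(X : ℝ)) ^ (η / 400) := by rw [hsqrpow, ← Real.rpow_mul hXpos.le]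
      _ ≤ (X1 : ℝ) ^ (η / 400) := Real.rpow_le_rpow hsqpos.le hsqX1 (by positivity)
  -- the quantities at the scale `X1`
  obtain ⟨T, hT⟩ : ∃ T : ℝ, T = (X1 : ℝ) ^ (η / 20) := ⟨_, rfl⟩
  have hT1 : 1 ≤ T := by rw [hT]; exact Real.one_le_rpow hX1one (by positivity)
  have hTX1 : T ≤ X1 := by
    rw [hT]
    calc (X1 : ℝ) ^ (η / 20) ≤ (X1 : ℝ) ^ (1 : ℝ) :=
          Real.rpow_le_rpow_of_exponent_le hX1one (by linarith)
      _ = X1 := Real.rpow_one _
  have hTinv : (X1 : ℝ) ^ (-(η / 20)) = 1 / T := by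
    rw [hT, Real.rpow_neg hX1r.le, one_div]
  obtain ⟨Z1, hZ1⟩ : ∃ Z1 : ℝ, Z1 = ZS o c (2 * η) X1 X1 := ⟨_, rfl⟩
  have hZ10 : 0 ≤ Z1 := by rw [hZ1]; exact zs_nonneg_fsx _ _ _ _ _ hX1r
  have hZ1le : Z1 ≤ ZS o c (2 * η) X (√(X : ℝ)) := by
    rw [hZ1]
    exact zs_mono_fsx hFin o c (2 * η) X1 X X1 (√(X : ℝ)) (by linarith)
      (by exact_mod_cast hX1X) hsqpos hsqX1
  have hWg : ∀ u : ℝ, ‖Wg o c w X1 T u‖ ≤ Cs * Z1 + 2 * (1 / T) := by
    intro u
    have := hspa X1 o c u hY0X1 hOKb hcond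
    rw [hTinv, ← hT, ← hZ1] at this
    exact this
  -- logarithms
  have hlogr : ∀ m : ℕ, 2 * H ≤ m → m ≤ 3 * H → Real.log (m / X1) ∈ Set.Icc (0.1 : ℝ) 0.9 := by
    intro m hm1 hm2
    have hm1' : (2 : ℝ) * H ≤ m := by exact_mod_cast hm1
    have hm2' : (m : ℝ) ≤ 3 * H := by exact_mod_cast hm2
    have hX1a' : (5 : ℝ) * X1 ≤ 9 * H := by exact_mod_cast hX1a
    have hX1c' : (3 : ℝ) * H ≤ 2 * X1 := by exact_mod_cast hX1c
    have hmpos : (0 : ℝ) < m := by linarith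
    constructor
    · have h1 := Real.one_sub_inv_le_log_of_pos (show 0 < (m : ℝ) / X1 by positivity)
      have h2 : ((m : ℝ) / X1)⁻¹ ≤ 9 / 10 := by
        rw [inv_div, div_le_iff₀ hmpos]
        linarith
      have h3 : (0.1 : ℝ) = 1 / 10 := by norm_num
      rw [h3]
      linarith
    · have h1 : (m : ℝ) / X1 ≤ 2 := by
        rw [div_le_iff₀ hX1r]; linarith
      have h2 : Real.log (m / X1) ≤ Real.log 2 := Real.log_le_log (by positivity) h1
      have h3 := Real.log_two_lt_d9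
      norm_num at h3 ⊢
      linarith
  -- windows
  have hxX1 : (X1 : ℝ) ≤ x := by
    have : X1 ≤ x := by omega
    exact_mod_cast this
  have hxpos : (0 : ℝ) < x := lt_of_lt_of_le hX1r hxX1
  obtain ⟨M, hM⟩ : ∃ M : ℝ, M = 2 * ((Cs * Z1 + 2 * (1 / T)) * (l / X1)) +
    Ch * Real.log X1 / T := ⟨_, rfl⟩
  have hlogX1 : 0 ≤ Real.log X1 := Real.log_nonneg hX1one
  have hTpos : 0 < T := by linarith
  have hM0 : 0 ≤ M := by rw [hM]; positivity
  have hwin : ∀ j ≤ l, ‖∑ m ∈ Ioc x (x + j), gm o c w X1 m / (m : ℂ)‖ ≤ M := by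
    intro j hj
    have h := hshc X1 j o c T x (by omega) (by omega) hT1 hTX1 hOKb1 (by linarith) (by
      have : x + j ≤ 3 * X1 := by omega
      exact_mod_cast this)
    have hset : (Icc 1 (3 * X1)).filter (fun m : ℕ => (x : ℝ) < (m : ℝ) ∧ (m : ℝ) ≤ x + j) =
        Ioc x (x + j) := by
      ext m
      rw [Finset.mem_filter, Finset.mem_Icc, Finset.mem_Ioc]
      constructor
      · rintro ⟨-, h1, h2⟩
        exact ⟨by exact_mod_cast h1, by exact_mod_cast h2⟩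
      · rintro ⟨h1, h2⟩
        exact ⟨⟨by omega, by omega⟩, by exact_mod_cast h1, by exact_mod_cast h2⟩
    rw [hset] at h
    refine h.trans ?_
    rw [hM]
    have hint : (∫ u in (Real.log x)..(Real.log (x + j)), ‖Wg o c w X1 T u‖) ≤
        (Cs * Z1 + 2 * (1 / T)) * (l / X1) := by
      have h1 : ‖∫ u in (Real.log x)..(Real.log (x + j)), ‖Wg o c w X1 T u‖‖ ≤
          (Cs * Z1 + 2 * (1 / T)) * |Real.log (x + j) - Real.log x| := by
        apply intervalIntegral.norm_integral_le_of_norm_le_const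
        intro u _
        rw [norm_norm]
        exact hWg u
      have h2 : |Real.log (x + j) - Real.log x| ≤ l / X1 := by
        rw [← Real.log_div (by positivity) hxpos.ne']
        have e : ((x : ℝ) + j) / x = 1 + j / x := by field_simp
        rw [e, abs_of_nonneg (Real.log_nonneg (by
          have : 0 ≤ (j : ℝ) / x := by positivity
          linarith))]
        have h3 := Real.log_le_sub_one_of_pos (show 0 < 1 + (j : ℝ) / x by positivity)
        have h4 : (j : ℝ) / x ≤ l / X1 :=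
          div_le_div₀ (Nat.cast_nonneg _) (by exact_mod_cast hj) hX1r hxX1
        linarith
      calc _ ≤ _ := (le_abs_self _).trans h1
        _ ≤ _ := mul_le_mul_of_nonneg_left h2 (by positivity)
    linarith
  -- partial summation
  have hpart := psum_bd_fsx (fun m => gm o c w X1 m / (m : ℂ))
    (fun m => (m : ℝ) / w (Real.log (m / X1))) x l M ((1 + K) * 10 ^ 6) (3000 * H) hwin (by
      have hm := hlogr (x + l) (by omega) hxl
      have hwl := hw.lower _ hm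
      have hb : ((x + l : ℕ) : ℝ) ≤ 3 * H := by exact_mod_cast hxl
      rw [abs_of_nonneg (div_nonneg (Nat.cast_nonneg _) (hw.nonneg _)),
        div_le_iff₀ (by linarith)]
      calc ((x + l : ℕ) : ℝ) ≤ 3000 * H * 0.001 := by linarith
        _ ≤ _ := mul_le_mul_of_nonneg_left hwl (by positivity))
    (by
      intro j hj
      exact incr_fsx w hw K hK0 hK X1 hX1r (x + j) (by omega) (hlogr _ (by omega) (by omega))
        (hlogr _ (by omega) (by omega)))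
  have hterm : ∑ m ∈ Ioc x (x + l), gm o c w X1 m / (m : ℂ) *
      (((m : ℝ) / w (Real.log (m / X1)) : ℝ) : ℂ) =
      ∑ m ∈ Ioc x (x + l), (((Λ m : ℝ) : ℂ) * c.ev m - ((mwt o c m : ℝ) : ℂ)) := by
    refine Finset.sum_congr rfl fun m hm => ?_
    rw [Finset.mem_Ioc] at hm
    have hwl := hw.lower _ (hlogr m (by omega) (by omega))
    have hw0 : ((w (Real.log (m / X1)) : ℝ) : ℂ) ≠ 0 := by
      rw [Complex.ofReal_ne_zero]
      have : (0 : ℝ) < 0.001 := by norm_num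
      linarith
    have hm0 : (m : ℂ) ≠ 0 := Nat.cast_ne_zero.mpr (by omega)
    unfold gm
    push_cast
    field_simp
  have hpp := pp_fsx c x l Cψ hψ
  have hsplit : ∑ n ∈ Ioc x (x + l), (((th n : ℝ) : ℂ) * c.ev n - ((mwt o c n : ℝ) : ℂ)) =
      ∑ m ∈ Ioc x (x + l), (((Λ m : ℝ) : ℂ) * c.ev m - ((mwt o c m : ℝ) : ℂ)) -
      ∑ n ∈ Ioc x (x + l), (((Λ n - th n : ℝ)) : ℂ) * c.ev n := by
    rw [← Finset.sum_sub_distrib]
    refine Finset.sum_congr rfl fun n _ => ?_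
    push_cast
    ring
  rw [hsplit]
  refine (norm_sub_le _ _).trans ?_
  rw [hterm] at hpart
  -- bounds
  have hlH : (l : ℝ) ≤ H := by
    have : l ≤ H := by omega
    exact_mod_cast this
  have hHX1 : (H : ℝ) ≤ X1 := by
    have : H ≤ X1 := by omega
    exact_mod_cast this
  have hpart2 : ‖∑ m ∈ Ioc x (x + l), (((Λ m : ℝ) : ℂ) * c.ev m - ((mwt o c m : ℝ) : ℂ))‖ ≤
      Cp * (H * M) := by
    refine hpart.trans ?_
    have h1 : 3000 * (H : ℝ) + l * ((1 + K) * 10 ^ 6) ≤ Cp * H := by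
      have h2 : (l : ℝ) * ((1 + K) * 10 ^ 6) ≤ H * ((1 + K) * 10 ^ 6) :=
        mul_le_mul_of_nonneg_right hlH (by positivity)
      have h3 : Cp * (H : ℝ) = H * ((1 + K) * 10 ^ 6) + 10 ^ 6 * H := by rw [hCp]; ring
      rw [h3]
      linarith
    calc _ ≤ M * (Cp * H) := mul_le_mul_of_nonneg_left h1 hM0
      _ = _ := by ring
  have hHM : (H : ℝ) * M ≤ 2 * (l * (Cs * Z1)) + (4 + Ch) * (√(X : ℝ) * (Real.log X / T)) := by
    have h1 : (H : ℝ) * (l / X1) ≤ l := by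
      rw [← mul_div_assoc, div_le_iff₀ hX1r, mul_comm]
      exact mul_le_mul_of_nonneg_left hHX1 (Nat.cast_nonneg _)
    have hlog1 : 1 ≤ Real.log X := by
      rw [Real.le_log_iff_exp_le hXpos]
      have := Real.exp_one_lt_d9
      linarith
    have hlogle : Real.log X1 ≤ Real.log X :=
      Real.log_le_log hX1r (by exact_mod_cast hX1X)
    have h2 : (H : ℝ) * M = 2 * ((H * (l / X1)) * (Cs * Z1)) + 4 * ((H * (l / X1)) * (1 / T)) +
        Ch * (H * (Real.log X1 / T)) := by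
      rw [hM]; ring
    have h3 : (H : ℝ) * (l / X1) * (Cs * Z1) ≤ l * (Cs * Z1) :=
      mul_le_mul_of_nonneg_right h1 (by positivity)
    have h4 : (H : ℝ) * (l / X1) * (1 / T) ≤ √(X : ℝ) * (Real.log X / T) := by
      apply mul_le_mul (h1.trans (hlH.trans hHsq)) _ (by positivity) hsqpos.le
      exact div_le_div_of_nonneg_right hlog1 hTpos.le
    have h5 : (H : ℝ) * (Real.log X1 / T) ≤ √(X : ℝ) * (Real.log X / T) := by
      apply mul_le_mul hHsq _ (by positivity) hsqpos.le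
      exact div_le_div_of_nonneg_right hlogle hTpos.le
    have h6 : Ch * ((H : ℝ) * (Real.log X1 / T)) ≤ Ch * (√(X : ℝ) * (Real.log X / T)) :=
      mul_le_mul_of_nonneg_left h5 (by linarith)
    rw [h2, add_mul]
    linarith
  have hlogT : Real.log X / T ≤ 200 / (3 * η) * (X : ℝ) ^ (-(η / 100)) := by
    have h1 := Real.log_le_rpow_div hXpos.le (show 0 < 3 * η / 200 by positivity)
    have h2 : 1 / T ≤ (X : ℝ) ^ (-(η / 40)) := by
      rw [← hTinv]
      calc (X1 : ℝ) ^ (-(η / 20)) ≤ (√(X : ℝ)) ^ (-(η / 20)) :=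
            Real.rpow_le_rpow_of_nonpos hsqpos hsqX1 (by linarith)
        _ = (X : ℝ) ^ (-(η / 40)) := by
            rw [hsqrpow, ← Real.rpow_mul hXpos.le]
            congr 1
            ring
    calc Real.log X / T = Real.log X * (1 / T) := by ring
      _ ≤ (X : ℝ) ^ (3 * η / 200) / (3 * η / 200) * (X : ℝ) ^ (-(η / 40)) :=
          mul_le_mul h1 h2 (by positivity) (by positivity)
      _ = 200 / (3 * η) * ((X : ℝ) ^ (3 * η / 200) * (X : ℝ) ^ (-(η / 40))) := by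
          field_simp
      _ = _ := by
          rw [← Real.rpow_add hXpos]
          congr 2
          ring
  have hψ2 : Cψ * √((x + l : ℕ) : ℝ) ≤ 2 * |Cψ| * (√(X : ℝ) * (X : ℝ) ^ (-(η / 100))) := by
    have h1 : √((x + l : ℕ) : ℝ) ≤ 2 * (X : ℝ) ^ (1 / 4 : ℝ) := by
      rw [Real.sqrt_le_left (by positivity), mul_pow, ← Real.rpow_natCast, ← Real.rpow_natCast,
        ← Real.rpow_mul hXpos.le]
      have e : (1 / 4 : ℝ) * ((2 : ℕ) : ℝ) = 1 / 2 := by norm_num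
      rw [e, ← hsqrpow]
      have hb : ((x + l : ℕ) : ℝ) ≤ 3 * H := by exact_mod_cast hxl
      have h4 : (2 : ℝ) ^ ((2 : ℕ) : ℝ) = 4 := by norm_num
      rw [h4]
      linarith
    have h2 : (X : ℝ) ^ (1 / 4 : ℝ) ≤ √(X : ℝ) * (X : ℝ) ^ (-(η / 100)) := by
      rw [hsqrpow, ← Real.rpow_add hXpos]
      exact Real.rpow_le_rpow_of_exponent_le (by linarith) (by linarith)
    calc Cψ * √((x + l : ℕ) : ℝ) ≤ |Cψ| * √((x + l : ℕ) : ℝ) :=
          mul_le_mul_of_nonneg_right (le_abs_self _) (Real.sqrt_nonneg _)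
      _ ≤ |Cψ| * (2 * (√(X : ℝ) * (X : ℝ) ^ (-(η / 100)))) :=
          mul_le_mul_of_nonneg_left (h1.trans (by linarith)) (abs_nonneg _)
      _ = _ := by ring
  obtain ⟨Q, hQ⟩ : ∃ Q : ℝ, Q = √(X : ℝ) * (X : ℝ) ^ (-(η / 100)) := ⟨_, rfl⟩
  have hQ0 : 0 < Q := by rw [hQ]; positivity
  obtain ⟨Z2, hZ2⟩ : ∃ Z2 : ℝ, Z2 = ZS o c (2 * η) X (√(X : ℝ)) := ⟨_, rfl⟩
  rw [← hZ2] at hZ1le ⊢
  rw [← hQ] at hψ2 ⊢
  have hL2 : √(X : ℝ) * (Real.log X / T) ≤ 200 / (3 * η) * Q := by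
    calc √(X : ℝ) * (Real.log X / T) ≤ √(X : ℝ) * (200 / (3 * η) * (X : ℝ) ^ (-(η / 100))) :=
          mul_le_mul_of_nonneg_left hlogT hsqpos.le
      _ = _ := by rw [hQ]; ring
  have hl0 : (0 : ℝ) ≤ l := Nat.cast_nonneg _
  have hZ20 : 0 ≤ Z2 := hZ10.trans hZ1le
  have g1 : (l : ℝ) * (Cs * Z1) ≤ l * (Cs * Z2) := by gcongr
  have g2 : Cp * (H * M) ≤ Cp * (2 * (l * (Cs * Z2)) + (4 + Ch) * (200 / (3 * η) * Q)) := by
    apply mul_le_mul_of_nonneg_left _ hCp0.le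
    refine hHM.trans ?_
    have : (4 + Ch) * (√(X : ℝ) * (Real.log X / T)) ≤ (4 + Ch) * (200 / (3 * η) * Q) :=
      mul_le_mul_of_nonneg_left hL2 (by linarith)
    linarith
  have hA0 : 0 ≤ 2 * Cp * Cs := by positivity
  have hB0 : 0 ≤ Cp * (4 + Ch) * (200 / (3 * η)) := by positivity
  have hC0 : 0 ≤ 2 * |Cψ| := by positivity
  have g3 : Cp * (2 * (l * (Cs * Z2)) + (4 + Ch) * (200 / (3 * η) * Q)) + 2 * |Cψ| * Q =
      2 * Cp * Cs * (l * Z2) + (Cp * (4 + Ch) * (200 / (3 * η)) + 2 * |Cψ|) * Q := by ring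
  have hlZ : 0 ≤ (l : ℝ) * Z2 := by positivity
  calc _ ≤ Cp * (H * M) + 2 * |Cψ| * Q := add_le_add hpart2 (hpp.trans hψ2)
    _ ≤ Cp * (2 * (l * (Cs * Z2)) + (4 + Ch) * (200 / (3 * η) * Q)) + 2 * |Cψ| * Q := by linarith
    _ = 2 * Cp * Cs * (l * Z2) + (Cp * (4 + Ch) * (200 / (3 * η)) + 2 * |Cψ|) * Q := g3
    _ ≤ _ := fin_fsx _ _ _ _ _ hA0 hB0 hC0 hlZ hQ0.le

end Pool.Agent.Helper12.MV
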