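import Pool.Agent.Helper23.MV.StL

/-!
# Project MV: module LFD (log-free density for well spaced zeros)
-/

set_option autoImplicit false

namespace Pool.Agent.Helper12.MV

open Finset ArithmeticFunction
open Pool.Agent.Helper23.MV

/-! ### sums over spaced points -/

private theorem spc_half {ι : Type*} (T : Finset ι) (f : ι → ℝ) (h1 : ∀ i ∈ T, 1 ≤ f i)
    (h : ∀ i ∈ T, ∀ j ∈ T, i ≠ j → 1 ≤ |f i - f j|) :
    ∑ i ∈ T, 1 / (f i) ^ 2 ≤ 2 := by
  classical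
  have hinj : Set.InjOn (fun i => ⌊f i⌋₊) (T : Set ι) := by
    intro i hi j hj hij
    by_contra hne
    have h2 := h i hi j hj hne
    have hij' : ⌊f i⌋₊ = ⌊f j⌋₊ := hij
    have hi0 : 0 ≤ f i := le_trans zero_le_one (h1 i hi)
    have hj0 : 0 ≤ f j := le_trans zero_le_one (h1 j hj)
    have a1 := Nat.floor_le hi0
    have a2 := Nat.lt_floor_add_one (f i)
    have b1 := Nat.floor_le hj0
    have b2 := Nat.lt_floor_add_one (f j)
    rw [hij'] at a1 a2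
    have : |f i - f j| < 1 := by
      rw [abs_lt]; constructor <;> linarith
    linarith
  have hle : ∑ i ∈ T, 1 / (f i) ^ 2 ≤ ∑ i ∈ T, (((⌊f i⌋₊ : ℕ) : ℝ) ^ 2)⁻¹ := by
    refine Finset.sum_le_sum fun i hi => ?_
    have hi1 := h1 i hi
    have hk : 1 ≤ ⌊f i⌋₊ := Nat.le_floor (by simpa using hi1)
    have hk' : (1 : ℝ) ≤ (⌊f i⌋₊ : ℕ) := by exact_mod_cast hk
    have hfl := Nat.floor_le (le_trans zero_le_one hi1)
    rw [one_div]
    apply inv_anti₀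
    · positivity
    · gcongr
  have himg : ∑ i ∈ T, (((⌊f i⌋₊ : ℕ) : ℝ) ^ 2)⁻¹ =
      ∑ m ∈ T.image (fun i => ⌊f i⌋₊), ((m : ℝ) ^ 2)⁻¹ := by
    rw [Finset.sum_image hinj]
  have hsub : T.image (fun i => ⌊f i⌋₊) ⊆
      Finset.Ioo 0 ((T.image (fun i => ⌊f i⌋₊)).sup id + 1) := by
    intro m hm
    rw [Finset.mem_Ioo]
    constructor
    · rw [Finset.mem_image] at hm
      obtain ⟨i, hi, rfl⟩ := hm
      exact Nat.floor_pos.mpr (h1 i hi)
    · exact Nat.lt_succ_of_le (Finset.le_sup (f := id) hm)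
  calc ∑ i ∈ T, 1 / (f i) ^ 2 ≤ ∑ m ∈ T.image (fun i => ⌊f i⌋₊), ((m : ℝ) ^ 2)⁻¹ := by
        rw [← himg]; exact hle
    _ ≤ ∑ m ∈ Finset.Ioo 0 ((T.image (fun i => ⌊f i⌋₊)).sup id + 1), ((m : ℝ) ^ 2)⁻¹ :=
        Finset.sum_le_sum_of_subset_of_nonneg hsub (fun _ _ _ => by positivity)
    _ ≤ 2 / ((0 : ℕ) + 1) := sum_Ioo_inv_sq_le 0 _
    _ = 2 := by norm_num

private theorem spc_full {ι : Type*} (T : Finset ι) (f : ι → ℝ) (h1 : ∀ i ∈ T, 1 ≤ |f i|)
    (h : ∀ i ∈ T, ∀ j ∈ T, i ≠ j → 1 ≤ |f i - f j|) :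
    ∑ i ∈ T, 1 / (f i) ^ 2 ≤ 4 := by
  classical
  rw [← Finset.sum_filter_add_sum_filter_not T (fun i => 0 ≤ f i)]
  have A : ∑ i ∈ T.filter (fun i => 0 ≤ f i), 1 / (f i) ^ 2 ≤ 2 := by
    apply spc_half
    · intro i hi
      rw [Finset.mem_filter] at hi
      have := h1 i hi.1
      rwa [abs_of_nonneg hi.2] at this
    · intro i hi j hj hne
      rw [Finset.mem_filter] at hi hj
      exact h i hi.1 j hj.1 hne
  have B : ∑ i ∈ T.filter (fun i => ¬ 0 ≤ f i), 1 / (-(f i)) ^ 2 ≤ 2 := by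
    apply spc_half _ (fun i => -(f i))
    · intro i hi
      rw [Finset.mem_filter] at hi
      have := h1 i hi.1
      rwa [abs_of_neg (not_le.mp hi.2)] at this
    · intro i hi j hj hne
      rw [Finset.mem_filter] at hi hj
      have := h i hi.1 j hj.1 hne
      rw [← abs_neg] at this
      have e : -(f i - f j) = -(f i) - -(f j) := by ring
      rwa [e] at this
  have B' : ∑ i ∈ T.filter (fun i => ¬ 0 ≤ f i), 1 / (f i) ^ 2 ≤ 2 := by
    refine le_trans (le_of_eq ?_) B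
    refine Finset.sum_congr rfl fun i _ => ?_
    rw [neg_sq]
  linarith

/-! ### duality -/

private theorem dual_lfd {ι : Type*} (F : Finset ι) (S S' : Finset ℕ) (hS : S ⊆ S')
    (hpos : ∀ n ∈ S', 0 < n) (A T W : ℕ → ℝ) (hW0 : ∀ n ∈ S', 0 ≤ W n) (hW1 : ∀ n ∈ S, 1 ≤ W n)
    (Z : ι → ℕ → ℂ) (CA : ℝ) (hA : ∑ n ∈ S, A n ^ 2 / n ≤ CA)
    (hd : ∀ v ∈ F, 1 / 2 ≤ ‖∑ n ∈ S, ((A n * T n : ℝ) : ℂ) * Z v n‖) :
    ((F.card : ℝ) / 2) ^ 2 ≤ CA * ∑ v ∈ F, ∑ w ∈ F,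
      ‖∑ n ∈ S', ((T n ^ 2 * W n : ℝ) : ℂ) * ((n : ℂ) * (Z v n * (starRingEnd ℂ) (Z w n)))‖ := by
  classical
  set Sv : ι → ℂ := fun v => ∑ n ∈ S, ((A n * T n : ℝ) : ℂ) * Z v n with hSv
  set η : ι → ℂ := fun v => (starRingEnd ℂ) (Sv v) / (‖Sv v‖ : ℂ) with hη
  have hη1 : ∀ v, ‖η v‖ ≤ 1 := by
    intro v
    simp only [hη, norm_div, RCLike.norm_conj, Complex.norm_real, norm_norm]
    exact div_self_le_one _
  have hηS : ∀ v, η v * Sv v = (‖Sv v‖ : ℂ) := by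
    intro v
    by_cases h0 : Sv v = 0
    · simp [hη, h0]
    · have h1 : (‖Sv v‖ : ℂ) ≠ 0 := by
        rw [Complex.ofReal_ne_zero]; exact norm_ne_zero_iff.mpr h0
      simp only [hη]
      rw [div_mul_eq_mul_div, div_eq_iff h1, mul_comm, Complex.mul_conj, Complex.normSq_eq_norm_sq]
      push_cast
      ring
  set B : ℕ → ℂ := fun n => ∑ v ∈ F, η v * Z v n with hB
  -- the linear form
  have hlin : ((∑ v ∈ F, ‖Sv v‖ : ℝ) : ℂ) = ∑ n ∈ S, ((A n * T n : ℝ) : ℂ) * B n := by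
    push_cast
    calc ∑ v ∈ F, (‖Sv v‖ : ℂ) = ∑ v ∈ F, η v * Sv v :=
          Finset.sum_congr rfl fun v _ => (hηS v).symm
      _ = ∑ v ∈ F, ∑ n ∈ S, η v * (((A n * T n : ℝ) : ℂ) * Z v n) := by
          refine Finset.sum_congr rfl fun v _ => ?_
          rw [hSv, Finset.mul_sum]
      _ = ∑ n ∈ S, ∑ v ∈ F, η v * (((A n * T n : ℝ) : ℂ) * Z v n) := Finset.sum_comm
      _ = _ := by
          refine Finset.sum_congr rfl fun n _ => ?_
          rw [hB, Finset.mul_sum]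
          refine Finset.sum_congr rfl fun v _ => ?_
          push_cast
          ring
  have hcard : (F.card : ℝ) / 2 ≤ ∑ v ∈ F, ‖Sv v‖ := by
    calc (F.card : ℝ) / 2 = ∑ v ∈ F, (1 / 2 : ℝ) := by
          rw [Finset.sum_const, nsmul_eq_mul]; ring
      _ ≤ _ := Finset.sum_le_sum fun v hv => hd v hv
  have hnn : 0 ≤ ∑ v ∈ F, ‖Sv v‖ := Finset.sum_nonneg fun _ _ => norm_nonneg _
  have hup : ∑ v ∈ F, ‖Sv v‖ ≤ ∑ n ∈ S, (|A n| / √n) * (|T n| * √n * ‖B n‖) := by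
    have e1 : ∑ v ∈ F, ‖Sv v‖ = ‖((∑ v ∈ F, ‖Sv v‖ : ℝ) : ℂ)‖ := by
      rw [Complex.norm_real, Real.norm_of_nonneg hnn]
    rw [e1, hlin]
    refine (norm_sum_le _ _).trans (Finset.sum_le_sum fun n hn => ?_)
    have hn0 : 0 < (n : ℝ) := by exact_mod_cast hpos n (hS hn)
    have hs : √(n : ℝ) ≠ 0 := (Real.sqrt_pos.mpr hn0).ne'
    rw [norm_mul, Complex.norm_real, Real.norm_eq_abs, abs_mul]
    apply le_of_eq
    field_simp
  have hCS : (∑ n ∈ S, (|A n| / √n) * (|T n| * √n * ‖B n‖)) ^ 2 ≤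
      (∑ n ∈ S, (|A n| / √n) ^ 2) * ∑ n ∈ S, (|T n| * √n * ‖B n‖) ^ 2 :=
    Finset.sum_mul_sq_le_sq_mul_sq _ _ _
  have h1 : ∑ n ∈ S, (|A n| / √n) ^ 2 = ∑ n ∈ S, A n ^ 2 / n := by
    refine Finset.sum_congr rfl fun n _ => ?_
    rw [div_pow, sq_abs, Real.sq_sqrt (Nat.cast_nonneg n)]
  have h2 : ∑ n ∈ S, (|T n| * √n * ‖B n‖) ^ 2 ≤ ∑ n ∈ S', T n ^ 2 * W n * (n * ‖B n‖ ^ 2) := by
    calc ∑ n ∈ S, (|T n| * √n * ‖B n‖) ^ 2 ≤ ∑ n ∈ S, T n ^ 2 * W n * (n * ‖B n‖ ^ 2) := by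
          refine Finset.sum_le_sum fun n hn => ?_
          rw [mul_pow, mul_pow, sq_abs, Real.sq_sqrt (Nat.cast_nonneg n)]
          have hw := hW1 n hn
          have hn0 : 0 ≤ T n ^ 2 * (n * ‖B n‖ ^ 2) := by positivity
          nlinarith
      _ ≤ _ := by
          refine Finset.sum_le_sum_of_subset_of_nonneg hS fun n hn _ => ?_
          have := hW0 n hn
          positivity
  have hcomm : ((∑ n ∈ S', T n ^ 2 * W n * (n * ‖B n‖ ^ 2) : ℝ) : ℂ) =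
      ∑ v ∈ F, ∑ w ∈ F, (η v * (starRingEnd ℂ) (η w)) *
        ∑ n ∈ S', ((T n ^ 2 * W n : ℝ) : ℂ) * ((n : ℂ) * (Z v n * (starRingEnd ℂ) (Z w n))) := by
    have e2 : ∀ n : ℕ, ((‖B n‖ ^ 2 : ℝ) : ℂ) =
        ∑ v ∈ F, ∑ w ∈ F, (η v * Z v n) * (starRingEnd ℂ) (η w * Z w n) := by
      intro n
      rw [← Complex.normSq_eq_norm_sq, ← Complex.mul_conj, hB]
      simp only [map_sum]
      rw [Finset.sum_mul_sum]
    calc ((∑ n ∈ S', T n ^ 2 * W n * (n * ‖B n‖ ^ 2) : ℝ) : ℂ)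
        = ∑ n ∈ S', ∑ v ∈ F, ∑ w ∈ F, (η v * (starRingEnd ℂ) (η w)) *
          (((T n ^ 2 * W n : ℝ) : ℂ) * ((n : ℂ) * (Z v n * (starRingEnd ℂ) (Z w n)))) := by
          rw [Complex.ofReal_sum]
          refine Finset.sum_congr rfl fun n _ => ?_
          rw [Complex.ofReal_mul, Complex.ofReal_mul (n : ℝ), e2 n, Finset.mul_sum, Finset.mul_sum]
          refine Finset.sum_congr rfl fun v _ => ?_
          rw [Finset.mul_sum, Finset.mul_sum]
          refine Finset.sum_congr rfl fun w _ => ?_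
          rw [map_mul]
          push_cast
          ring
      _ = ∑ v ∈ F, ∑ n ∈ S', ∑ w ∈ F, (η v * (starRingEnd ℂ) (η w)) *
          (((T n ^ 2 * W n : ℝ) : ℂ) * ((n : ℂ) * (Z v n * (starRingEnd ℂ) (Z w n)))) :=
          Finset.sum_comm
      _ = _ := by
          refine Finset.sum_congr rfl fun v _ => ?_
          rw [Finset.sum_comm]
          refine Finset.sum_congr rfl fun w _ => ?_
          rw [Finset.mul_sum]
  have hfin : ∑ n ∈ S', T n ^ 2 * W n * (n * ‖B n‖ ^ 2) ≤ ∑ v ∈ F, ∑ w ∈ F,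
      ‖∑ n ∈ S', ((T n ^ 2 * W n : ℝ) : ℂ) * ((n : ℂ) * (Z v n * (starRingEnd ℂ) (Z w n)))‖ := by
    calc ∑ n ∈ S', T n ^ 2 * W n * (n * ‖B n‖ ^ 2)
        ≤ ‖((∑ n ∈ S', T n ^ 2 * W n * (n * ‖B n‖ ^ 2) : ℝ) : ℂ)‖ := by
          rw [Complex.norm_real]; exact le_abs_self _
      _ ≤ _ := by
          rw [hcomm]
          refine (norm_sum_le _ _).trans (Finset.sum_le_sum fun v _ => ?_)
          refine (norm_sum_le _ _).trans (Finset.sum_le_sum fun w _ => ?_)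
          rw [norm_mul, norm_mul, RCLike.norm_conj]
          have : ‖η v‖ * ‖η w‖ ≤ 1 := mul_le_one₀ (hη1 v) (norm_nonneg _) (hη1 w)
          exact mul_le_of_le_one_left (norm_nonneg _) this
  have hCA : 0 ≤ ∑ n ∈ S, A n ^ 2 / n := Finset.sum_nonneg fun n _ => by positivity
  have hK0 : 0 ≤ ∑ n ∈ S, (|T n| * √n * ‖B n‖) ^ 2 := Finset.sum_nonneg fun n _ => by positivity
  calc ((F.card : ℝ) / 2) ^ 2 ≤ (∑ n ∈ S, (|A n| / √n) * (|T n| * √n * ‖B n‖)) ^ 2 := by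
        apply pow_le_pow_left₀ (by positivity)
        exact hcard.trans hup
    _ ≤ (∑ n ∈ S, (|A n| / √n) ^ 2) * ∑ n ∈ S, (|T n| * √n * ‖B n‖) ^ 2 := hCS
    _ = (∑ n ∈ S, A n ^ 2 / n) * ∑ n ∈ S, (|T n| * √n * ‖B n‖) ^ 2 := by rw [h1]
    _ ≤ CA * _ := mul_le_mul hA (h2.trans hfin) hK0 (hCA.trans hA)

/-! ### elementary facts -/

private theorem gD_inv_lfd (n : ℕ) (hn : Squarefree n) :
    gD (fun p => 1 / (p : ℝ)) n = 1 / (n : ℝ) := by
  unfold gD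
  have h := Nat.prod_primeFactors_of_squarefree hn
  calc ∏ p ∈ n.primeFactors, 1 / (p : ℝ) = 1 / ∏ p ∈ n.primeFactors, (p : ℝ) := by
        rw [Finset.prod_div_distrib, Finset.prod_const_one]
    _ = 1 / ((∏ p ∈ n.primeFactors, p : ℕ) : ℝ) := by push_cast; rfl
    _ = _ := by rw [h]

private theorem tk_nonneg_lfd (κ X u : ℝ) : 0 ≤ tk κ X u := by
  unfold tk tn; exact le_max_left _ _

private theorem tk_one_lfd (κ X u : ℝ) (hκ : 0 < κ) (hX : 1 < X) (h1 : X ^ (5 * κ) ≤ u)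
    (h2 : u ≤ X ^ (8 * κ)) : 1 ≤ tk κ X u := by
  have hX0 : 0 < X := by linarith
  have hL : 0 < Real.log X := Real.log_pos hX
  have hu0 : 0 < u := lt_of_lt_of_le (Real.rpow_pos_of_pos hX0 _) h1
  have l1 : 5 * κ * Real.log X ≤ Real.log u := by
    rw [← Real.log_rpow hX0]; exact Real.log_le_log (Real.rpow_pos_of_pos hX0 _) h1
  have l2 : Real.log u ≤ 8 * κ * Real.log X := by
    rw [← Real.log_rpow hX0]; exact Real.log_le_log hu0 h2
  unfold tk tn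
  refine le_max_of_le_right ?_
  have hk : 0 < κ * Real.log X := mul_pos hκ hL
  have habs : |Real.log u - 13 / 2 * κ * Real.log X| ≤ 3 / 2 * (κ * Real.log X) := by
    rw [abs_le]; constructor <;> linarith
  have hdiv : |Real.log u - 13 / 2 * κ * Real.log X| / (3 * κ * Real.log X) ≤ 1 / 2 := by
    rw [div_le_iff₀ (by nlinarith)]
    nlinarith
  linarith

private theorem one_apply_lfd (q n : ℕ) :
    (1 : DirichletCharacter ℂ q) (n : ZMod q) = if Nat.Coprime n q then 1 else 0 := by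
  classical
  by_cases h : Nat.Coprime n q
  · rw [if_pos h]
    exact MulChar.one_apply ((ZMod.isUnit_iff_coprime n q).mpr h)
  · rw [if_neg h]
    exact MulChar.map_nonunit _ (fun h' => h ((ZMod.isUnit_iff_coprime n q).mp h'))

/-- the algebra of the kernel -/
private theorem ker_alg_lfd (n : ℕ) (hn : 0 < n) (x y ρ ρ' : ℂ) :
    (n : ℂ) * ((x * (n : ℂ) ^ (-ρ)) * (starRingEnd ℂ) (y * (n : ℂ) ^ (-ρ'))) =
      (x * (starRingEnd ℂ) y) * (n : ℂ) ^ (-(ρ + (starRingEnd ℂ) ρ' - 1)) := by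
  have hn0 : (n : ℂ) ≠ 0 := Nat.cast_ne_zero.mpr hn.ne'
  have hc : (starRingEnd ℂ) ((n : ℂ) ^ (-ρ')) = (n : ℂ) ^ (-(starRingEnd ℂ) ρ') := by
    rw [← Complex.conj_natCast n, ← map_neg, ← Complex.cpow_conj, Complex.conj_natCast]
    rw [Complex.natCast_arg]
    exact Real.pi_pos.ne
  rw [map_mul, hc]
  have e : (n : ℂ) ^ (-(ρ + (starRingEnd ℂ) ρ' - 1)) =
      (n : ℂ) ^ (-ρ) * (n : ℂ) ^ (-(starRingEnd ℂ) ρ') * (n : ℂ) := by
    rw [← Complex.cpow_add _ _ hn0]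
    conv_rhs => rw [← Complex.cpow_one (n : ℂ)]
    rw [Complex.cpow_one]
    conv_rhs => arg 2; rw [← Complex.cpow_one (n : ℂ)]
    rw [← Complex.cpow_add _ _ hn0]
    congr 1
    ring
  rw [e]
  ring

private theorem sqf_lcm_lfd (a b : ℕ) (ha : Squarefree a) (hb : Squarefree b) :
    Squarefree (Nat.lcm a b) := by
  have ha0 := ha.ne_zero
  have hb0 := hb.ne_zero
  rw [Nat.squarefree_iff_factorization_le_one (Nat.lcm_ne_zero ha0 hb0)]
  intro p
  rw [Nat.factorization_lcm ha0 hb0, Finsupp.sup_apply]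
  exact max_le (ha.natFactorization_le_one p) (hb.natFactorization_le_one p)

/-! ### the theorem -/

theorem hLfd (hSel : StSel) (hDen : StDen) (hHar : StHar) (hAz0 : StAz0) (hKer : StKer)
    (hTnt : StTnt) (hDet : StDet) (hPrd : StPrd) : StLfd := by
  classical
  intro κ hκ hκ1
  obtain ⟨-, CA, hCA1, hAz⟩ := hAz0
  obtain ⟨cK, XK, hcK, hcKκ, hXK, hK⟩ := hKer κ hκ hκ1
  obtain ⟨cD, XD, hcD, hcDκ, hXD, hD⟩ := hDet κ hκ hκ1
  obtain ⟨hP1, hP2, -⟩ := hPrd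
  have hc0 : 0 < min cD (cK / 2) := lt_min hcD (by linarith)
  have hcD' : min cD (cK / 2) ≤ cD := min_le_left _ _
  have hcK' : min cD (cK / 2) ≤ cK / 2 := min_le_right _ _
  generalize min cD (cK / 2) = c at hc0 hcD' hcK'
  have hC1 : (6 : ℝ) ≤ 6 + 12 / κ ^ 2 := by
    have : 0 ≤ 12 / κ ^ 2 := by positivity
    linarith
  refine ⟨c, 8 * CA * (6 + 12 / κ ^ 2), max (max XK XD) (max ((3 : ℝ) ^ (1 / κ))
    ((8 * CA) ^ (1 / cK))), hc0, hcD'.trans hcDκ, by nlinarith, ?_, ?_⟩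
  · exact le_trans hXK (le_trans (le_max_left _ _) (le_max_left _ _))
  intro X a F hX ha0 hac hF hsp
  have hXK' : XK ≤ X := le_trans (le_trans (le_max_left _ _) (le_max_left _ _)) hX
  have hXD' : XD ≤ X := le_trans (le_trans (le_max_right _ _) (le_max_left _ _)) hX
  have hX3 : (3 : ℝ) ^ (1 / κ) ≤ X := le_trans (le_trans (le_max_left _ _) (le_max_right _ _)) hX
  have hX8 : (8 * CA) ^ (1 / cK) ≤ X := le_trans (le_trans (le_max_right _ _) (le_max_right _ _)) hX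
  have hX2 : 2 ≤ X := le_trans hXK hXK'
  have hXpos : 0 < X := by linarith
  have hX1 : 1 < X := by linarith
  have hL : 0 < Real.log X := Real.log_pos hX1
  have hXκ3 : 3 ≤ X ^ κ := by
    calc (3 : ℝ) = ((3 : ℝ) ^ (1 / κ)) ^ κ := by
          rw [← Real.rpow_mul (by norm_num)]; rw [one_div_mul_cancel hκ.ne', Real.rpow_one]
      _ ≤ X ^ κ := Real.rpow_le_rpow (by positivity) hX3 hκ.le
  have hX8' : 8 * CA ≤ X ^ cK := by
    calc 8 * CA = ((8 * CA) ^ (1 / cK)) ^ cK := by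
          rw [← Real.rpow_mul (by positivity)]; rw [one_div_mul_cancel hcK.ne', Real.rpow_one]
      _ ≤ X ^ cK := Real.rpow_le_rpow (by positivity) hX8 hcK.le
  have hsmall : CA * X ^ (-cK) ≤ 1 / 8 := by
    rw [Real.rpow_neg hXpos.le]
    have hp : 0 < X ^ cK := Real.rpow_pos_of_pos hXpos _
    rw [← div_eq_mul_inv, div_le_iff₀ hp]
    linarith
  -- the Selberg weights
  obtain ⟨θ, hθ1, hθle, hθz, hθsf, hθform⟩ := hSel (fun p => 1 / (p : ℝ)) ⌊X ^ κ⌋₊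
    (Nat.le_floor (by push_cast; linarith)) (by
      intro p hp
      have h2 : (2 : ℝ) ≤ p := by exact_mod_cast hp.two_le
      constructor
      · positivity
      · rw [div_lt_one (by linarith)]; linarith)
  have hθzX : ∀ d : ℕ, X ^ κ < d → θ d = 0 := by
    intro d hd
    apply hθz
    exact (Nat.floor_lt (by positivity)).mpr hd
  have hform : ∑ d₁ ∈ Icc 1 ⌊X ^ κ⌋₊, ∑ d₂ ∈ Icc 1 ⌊X ^ κ⌋₊, θ d₁ * θ d₂ / Nat.lcm d₁ d₂ ≤
      1 / (κ * Real.log X) := by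
    have e1 : ∑ d₁ ∈ Icc 1 ⌊X ^ κ⌋₊, ∑ d₂ ∈ Icc 1 ⌊X ^ κ⌋₊, θ d₁ * θ d₂ / Nat.lcm d₁ d₂ =
        ∑ d₁ ∈ Icc 1 ⌊X ^ κ⌋₊, ∑ d₂ ∈ Icc 1 ⌊X ^ κ⌋₊,
          θ d₁ * θ d₂ * gD (fun p => 1 / (p : ℝ)) (Nat.lcm d₁ d₂) := by
      refine Finset.sum_congr rfl fun d₁ _ => Finset.sum_congr rfl fun d₂ _ => ?_
      by_cases h1 : Squarefree d₁
      · by_cases h2 : Squarefree d₂
        · rw [gD_inv_lfd _ (sqf_lcm_lfd _ _ h1 h2)]
          ring
        · rw [hθsf _ h2]; simp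
      · rw [hθsf _ h1]; simp
    rw [e1, hθform]
    have hG := hHar ⌊X ^ κ⌋₊ (Nat.le_floor (by push_cast; linarith))
    have hlog : κ * Real.log X ≤ Real.log ((⌊X ^ κ⌋₊ : ℝ) + 1) := by
      rw [← Real.log_rpow hXpos]
      exact Real.log_le_log (by positivity) (Nat.lt_floor_add_one _).le
    exact one_div_le_one_div_of_le (mul_pos hκ hL) (hlog.trans hG)
  -- size of the L-values arguments
  have hre : ∀ v ∈ F, v.2.re < 1 := by
    intro v hv
    obtain ⟨_, hχ, hz, _, _⟩ := hF v hv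
    by_contra hcon
    exact DirichletCharacter.LFunction_ne_zero_of_one_le_re v.1.χ (Or.inl hχ)
      (not_lt.mp hcon) hz
  -- kernel
  set Z : PCh × ℂ → ℕ → ℂ := fun v n => v.1.ev n * (n : ℂ) ^ (-v.2) with hZ
  set Y : ℝ := X ^ (20 * κ * a) with hY
  have hYpos : 0 < Y := Real.rpow_pos_of_pos hXpos _
  set KK : PCh × ℂ → PCh × ℂ → ℝ := fun v w =>
    ‖∑ n ∈ Icc 1 ⌊X ^ (10 * κ)⌋₊, ((sd θ n ^ 2 * tk κ X n : ℝ) : ℂ) *
      ((n : ℂ) * (Z v n * (starRingEnd ℂ) (Z w n)))‖ with hKK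
  have hrew : ∀ v w : PCh × ℂ, ∑ n ∈ Icc 1 ⌊X ^ (10 * κ)⌋₊,
      ((sd θ n ^ 2 * tk κ X n : ℝ) : ℂ) * ((n : ℂ) * (Z v n * (starRingEnd ℂ) (Z w n))) =
      ∑ n ∈ Icc 1 ⌊X ^ (10 * κ)⌋₊, ((sd θ n ^ 2 * tk κ X n : ℝ) : ℂ) *
        (v.1.ev n * (starRingEnd ℂ) (w.1.ev n)) *
          (n : ℂ) ^ (-(v.2 + (starRingEnd ℂ) w.2 - 1)) := by
    intro v w
    refine Finset.sum_congr rfl fun n hn => ?_
    rw [hZ]
    simp only
    rw [ker_alg_lfd n (Finset.mem_Icc.mp hn).1]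
    ring
  -- the two cases
  have hKdiff : ∀ v ∈ F, ∀ w ∈ F, v.1 ≠ w.1 → KK v w ≤ X ^ (-cK) := by
    intro v hv w hw hne
    obtain ⟨hv1, hv2, hv3, hv4, hv5⟩ := hF v hv
    obtain ⟨hw1, hw2, hw3, hw4, hw5⟩ := hF w hw
    obtain ⟨ψ, hψ1, hψ⟩ := hP1 v.1 w.1 hne
    have : NeZero (v.1.r * w.1.r) := ⟨mul_ne_zero v.1.hr w.1.hr⟩
    have hq : ((v.1.r * w.1.r : ℕ) : ℝ) ≤ X ^ cK := by
      push_cast
      calc (v.1.r : ℝ) * w.1.r ≤ X ^ c * X ^ c :=
            mul_le_mul hv1 hw1 (Nat.cast_nonneg _) (by positivity)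
        _ = X ^ (c + c) := by rw [Real.rpow_add hXpos]
        _ ≤ X ^ cK := Real.rpow_le_rpow_of_exponent_le hX1.le (by linarith)
    have h := hK X (v.1.r * w.1.r) ψ θ (v.2 + (starRingEnd ℂ) w.2 - 1) hXK' hq hθle hθzX
      (by simp only [Complex.sub_re, Complex.add_re, Complex.conj_re, Complex.one_re]; linarith)
      (by
        have := hre v hv; have := hre w hw
        simp only [Complex.sub_re, Complex.add_re, Complex.conj_re, Complex.one_re]; linarith)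
      (by
        simp only [Complex.sub_im, Complex.add_im, Complex.conj_im, Complex.one_im]
        rw [abs_le] at hv5 hw5 ⊢
        constructor <;> linarith [hv5.1, hv5.2, hw5.1, hw5.2])
    have hpc : pc ψ = 0 := by unfold pc; rw [if_neg hψ1]
    rw [hpc, Complex.ofReal_zero, zero_mul, zero_mul, sub_zero] at h
    rw [hKK]
    simp only
    rw [hrew]
    simp only [hψ] at h
    exact h
  have hKsame : ∀ v ∈ F, ∀ w ∈ F, v.1 = w.1 → KK v w ≤ X ^ (-cK) + 6 * Y ∧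
      (v.2.im - w.2.im ≠ 0 → KK v w ≤ X ^ (-cK) + 3 * Y / κ ^ 2 *
        (1 / (Real.log X * (v.2.im - w.2.im)) ^ 2)) := by
    intro v hv w hw heq
    obtain ⟨hv1, hv2, hv3, hv4, hv5⟩ := hF v hv
    obtain ⟨hw1, hw2, hw3, hw4, hw5⟩ := hF w hw
    have hq : ((v.1.r : ℕ) : ℝ) ≤ X ^ cK :=
      hv1.trans (Real.rpow_le_rpow_of_exponent_le hX1.le (by linarith))
    have hsre : (v.2 + (starRingEnd ℂ) w.2 - 1).re = v.2.re + w.2.re - 1 := by
      simp only [Complex.sub_re, Complex.add_re, Complex.conj_re, Complex.one_re]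
    have hsim : (v.2 + (starRingEnd ℂ) w.2 - 1).im = v.2.im - w.2.im := by
      simp only [Complex.sub_im, Complex.add_im, Complex.conj_im, Complex.one_im]; ring
    have hre1 := hre v hv
    have hre2 := hre w hw
    have h := hK X v.1.r (1 : DirichletCharacter ℂ v.1.r) θ (v.2 + (starRingEnd ℂ) w.2 - 1) hXK' hq
      hθle hθzX (by rw [hsre]; linarith) (by rw [hsre]; linarith)
      (by
        rw [hsim]
        rw [abs_le] at hv5 hw5 ⊢
        constructor <;> linarith [hv5.1, hv5.2, hw5.1, hw5.2])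
    have hsum : ∑ n ∈ Icc 1 ⌊X ^ (10 * κ)⌋₊, ((sd θ n ^ 2 * tk κ X n : ℝ) : ℂ) *
        (1 : DirichletCharacter ℂ v.1.r) (n : ZMod v.1.r) *
          (n : ℂ) ^ (-(v.2 + (starRingEnd ℂ) w.2 - 1)) =
        ∑ n ∈ Icc 1 ⌊X ^ (10 * κ)⌋₊, ((sd θ n ^ 2 * tk κ X n : ℝ) : ℂ) *
          ((n : ℂ) * (Z v n * (starRingEnd ℂ) (Z w n))) := by
      rw [hrew]
      refine Finset.sum_congr rfl fun n _ => ?_
      rw [hP2, ← heq]
    rw [hsum] at h
    -- the density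
    obtain ⟨hD0, hD1⟩ := hDen θ ⌊X ^ κ⌋₊ v.1.r (Nat.one_le_iff_ne_zero.mpr v.1.hr) hθz
    set D0 : ℝ := (v.1.r.totient : ℝ) / v.1.r * ∑ d₁ ∈ Icc 1 ⌊X ^ κ⌋₊, ∑ d₂ ∈ Icc 1 ⌊X ^ κ⌋₊,
      (if Nat.Coprime (Nat.lcm d₁ d₂) v.1.r then θ d₁ * θ d₂ / Nat.lcm d₁ d₂ else 0) with hD0def
    have hD2 : D0 ≤ 1 / (κ * Real.log X) := hD1.trans hform
    have hcoef : (pc (1 : DirichletCharacter ℂ v.1.r) : ℂ) *
        (∑ d₁ ∈ Icc 1 ⌊X ^ κ⌋₊, ∑ d₂ ∈ Icc 1 ⌊X ^ κ⌋₊,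
          ((θ d₁ * θ d₂ / Nat.lcm d₁ d₂ : ℝ) : ℂ) *
            (1 : DirichletCharacter ℂ v.1.r) ((Nat.lcm d₁ d₂ : ℕ) : ZMod v.1.r)) =
        ((D0 : ℝ) : ℂ) := by
      have hpc : pc (1 : DirichletCharacter ℂ v.1.r) = (v.1.r.totient : ℝ) / v.1.r := by
        unfold pc; rw [if_pos rfl]
      rw [hpc, hD0def, Complex.ofReal_mul, Complex.ofReal_sum]
      congr 1
      refine Finset.sum_congr rfl fun d₁ _ => ?_
      rw [Complex.ofReal_sum]
      refine Finset.sum_congr rfl fun d₂ _ => ?_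
      rw [one_apply_lfd]
      split_ifs
      · rw [mul_one]
      · rw [mul_zero, Complex.ofReal_zero]
    rw [hcoef] at h
    obtain ⟨hT1, hT2⟩ := hTnt κ X (v.2 + (starRingEnd ℂ) w.2 - 1) hκ hX1 (by rw [hsre]; linarith)
    set I : ℂ := ∫ u in Set.Ioi (1 : ℝ), ((tk κ X u : ℝ) : ℂ) *
      (u : ℂ) ^ (-(v.2 + (starRingEnd ℂ) w.2 - 1)) with hI
    have hYb : X ^ (10 * κ * (1 - (v.2 + (starRingEnd ℂ) w.2 - 1).re)) ≤ Y := by
      rw [hY, hsre]
      apply Real.rpow_le_rpow_of_exponent_le hX1.le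
      nlinarith
    have hbase : KK v w ≤ X ^ (-cK) + D0 * ‖I‖ := by
      rw [hKK]
      simp only
      have e3 : ‖((D0 : ℝ) : ℂ) * I‖ = D0 * ‖I‖ := by
        rw [norm_mul, Complex.norm_real, Real.norm_of_nonneg hD0]
      rw [← e3]
      have := norm_sub_norm_le (∑ n ∈ Icc 1 ⌊X ^ (10 * κ)⌋₊,
        ((sd θ n ^ 2 * tk κ X n : ℝ) : ℂ) * ((n : ℂ) * (Z v n * (starRingEnd ℂ) (Z w n))))
        (((D0 : ℝ) : ℂ) * I)
      linarith
    have hkL : 0 < κ * Real.log X := mul_pos hκ hL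
    constructor
    · have h1 : D0 * ‖I‖ ≤ 1 / (κ * Real.log X) * (6 * κ * Real.log X * Y) := by
        apply mul_le_mul hD2 _ (norm_nonneg _) (by positivity)
        exact hT1.trans (mul_le_mul_of_nonneg_left hYb (by positivity))
      have h2 : 1 / (κ * Real.log X) * (6 * κ * Real.log X * Y) = 6 * Y := by
        field_simp
      rw [h2] at h1
      linarith
    · intro hτ
      have hτ2 : 0 < (v.2.im - w.2.im) ^ 2 := by positivity
      have hT2' := hT2 (by rw [hsim]; exact hτ)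
      rw [hsim] at hT2'
      have h1 : D0 * ‖I‖ ≤ 1 / (κ * Real.log X) *
          (3 * Y / (κ * Real.log X * (v.2.im - w.2.im) ^ 2)) := by
        apply mul_le_mul hD2 _ (norm_nonneg _) (by positivity)
        refine hT2'.trans ?_
        gcongr
      have h2 : 1 / (κ * Real.log X) * (3 * Y / (κ * Real.log X * (v.2.im - w.2.im) ^ 2)) =
          3 * Y / κ ^ 2 * (1 / (Real.log X * (v.2.im - w.2.im)) ^ 2) := by
        field_simp
      rw [h2] at h1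
      linarith
  -- summation over the second zero
  have hrow : ∀ v ∈ F, ∑ w ∈ F, KK v w ≤ F.card * X ^ (-cK) + (6 + 12 / κ ^ 2) * Y := by
    intro v hv
    have hpt : ∀ w ∈ F, KK v w ≤ X ^ (-cK) + ((if w = v then 6 * Y else 0) +
        (if w ≠ v ∧ w.1 = v.1 then 3 * Y / κ ^ 2 *
          (1 / (Real.log X * (v.2.im - w.2.im)) ^ 2) else 0)) := by
      intro w hw
      by_cases h1 : v.1 = w.1
      · obtain ⟨hs1, hs2⟩ := hKsame v hv w hw h1
        by_cases h2 : w = v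
        · rw [if_pos h2, if_neg (by rintro ⟨h3, -⟩; exact h3 h2)]
          linarith
        · rw [if_neg h2, if_pos ⟨h2, h1.symm⟩]
          have hτ : v.2.im - w.2.im ≠ 0 := by
            intro h0
            have h3 := hsp v hv w hw (fun h => h2 h.symm) h1
            rw [h0, abs_zero] at h3
            have : 0 < 1 / Real.log X := by positivity
            linarith
          have := hs2 hτ
          linarith
      · have hd := hKdiff v hv w hw h1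
        rw [if_neg (by rintro rfl; exact h1 rfl), if_neg (by rintro ⟨-, h3⟩; exact h1 h3.symm)]
        linarith
    refine (Finset.sum_le_sum hpt).trans ?_
    rw [Finset.sum_add_distrib, Finset.sum_const, nsmul_eq_mul, Finset.sum_add_distrib]
    have hA1 : ∑ w ∈ F, (if w = v then 6 * Y else 0) = 6 * Y := by
      rw [Finset.sum_ite_eq' F v (fun _ => 6 * Y), if_pos hv]
    have hA2 : ∑ w ∈ F, (if w ≠ v ∧ w.1 = v.1 then 3 * Y / κ ^ 2 *
          (1 / (Real.log X * (v.2.im - w.2.im)) ^ 2) else 0) ≤ 12 / κ ^ 2 * Y := by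
      rw [← Finset.sum_filter, ← Finset.mul_sum]
      have hsp4 : ∑ w ∈ F.filter (fun w => w ≠ v ∧ w.1 = v.1),
          1 / (Real.log X * (v.2.im - w.2.im)) ^ 2 ≤ 4 := by
        have hone : ∀ x y : PCh × ℂ, x ∈ F → y ∈ F → x ≠ y → x.1 = y.1 →
            1 ≤ Real.log X * |x.2.im - y.2.im| := by
          intro x y hx hy hxy h1
          have h3 := hsp x hx y hy hxy h1
          rw [div_le_iff₀ hL] at h3
          linarith
        apply spc_full
        · intro w hw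
          rw [Finset.mem_filter] at hw
          rw [abs_mul, abs_of_pos hL]
          exact hone v w hv hw.1 (fun h => hw.2.1 h.symm) hw.2.2.symm
        · intro w hw w' hw' hne
          rw [Finset.mem_filter] at hw hw'
          have e4 : Real.log X * (v.2.im - w.2.im) - Real.log X * (v.2.im - w'.2.im) =
              Real.log X * (w'.2.im - w.2.im) := by ring
          rw [e4, abs_mul, abs_of_pos hL]
          exact hone w' w hw'.1 hw.1 hne.symm (hw'.2.2.trans hw.2.2.symm)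
      calc 3 * Y / κ ^ 2 * ∑ w ∈ F.filter (fun w => w ≠ v ∧ w.1 = v.1),
          1 / (Real.log X * (v.2.im - w.2.im)) ^ 2 ≤ 3 * Y / κ ^ 2 * 4 :=
            mul_le_mul_of_nonneg_left hsp4 (by positivity)
        _ = 12 / κ ^ 2 * Y := by ring
    rw [hA1]
    linarith
  -- duality
  have hdual := dual_lfd F ((Icc 1 ⌊X ^ (8 * κ)⌋₊).filter (fun n : ℕ => X ^ (5 * κ) < n))
    (Icc 1 ⌊X ^ (10 * κ)⌋₊) (by
      intro n hn
      rw [Finset.mem_filter, Finset.mem_Icc] at hn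
      rw [Finset.mem_Icc]
      refine ⟨hn.1.1, hn.1.2.trans (Nat.floor_le_floor ?_)⟩
      exact Real.rpow_le_rpow_of_exponent_le hX1.le (by linarith))
    (by intro n hn; exact (Finset.mem_Icc.mp hn).1)
    (fun n => sd (lam (X ^ (5 * κ)) (X ^ (6 * κ))) n) (fun n => sd θ n) (fun n => tk κ X n)
    (by intro n _; exact tk_nonneg_lfd _ _ _)
    (by
      intro n hn
      rw [Finset.mem_filter, Finset.mem_Icc] at hn
      refine tk_one_lfd κ X n hκ hX1 hn.2.le ?_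
      exact le_trans (Nat.cast_le.mpr hn.1.2) (Nat.floor_le (by positivity)))
    Z CA (by
      refine le_trans ?_ (hAz κ X hκ hX1.le hXκ3)
      refine Finset.sum_le_sum_of_subset_of_nonneg ?_ (fun n _ _ => by positivity)
      intro n hn
      rw [Finset.mem_filter, Finset.mem_Icc] at hn
      rw [Finset.mem_Icc]
      refine ⟨hn.1.1, hn.1.2.trans (Nat.floor_le_floor ?_)⟩
      exact Real.rpow_le_rpow_of_exponent_le hX1.le (by linarith))
    (by
      intro v hv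
      obtain ⟨hv1, hv2, hv3, hv4, hv5⟩ := hF v hv
      have h := hD X v.1 θ v.2 hXD'
        (hv1.trans (Real.rpow_le_rpow_of_exponent_le hX1.le hcD')) hv2 hθ1 hθle hθzX hv3
        (by linarith) hv5
      refine h.trans (le_of_eq ?_)
      congr 1
      refine Finset.sum_congr rfl fun n _ => ?_
      rw [hZ]
      simp only
      ring)
  have hsumall : ∑ v ∈ F, ∑ w ∈ F, KK v w ≤
      F.card * (F.card * X ^ (-cK) + (6 + 12 / κ ^ 2) * Y) := by
    calc ∑ v ∈ F, ∑ w ∈ F, KK v w ≤ ∑ v ∈ F, (F.card * X ^ (-cK) + (6 + 12 / κ ^ 2) * Y) :=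
          Finset.sum_le_sum hrow
      _ = _ := by rw [Finset.sum_const, nsmul_eq_mul]
  have hmain : ((F.card : ℝ) / 2) ^ 2 ≤
      CA * (F.card * (F.card * X ^ (-cK) + (6 + 12 / κ ^ 2) * Y)) :=
    hdual.trans (mul_le_mul_of_nonneg_left hsumall (by linarith))
  -- solve
  rcases Nat.eq_zero_or_pos F.card with h0 | h0
  · rw [h0, Nat.cast_zero]
    positivity
  · have hR : (0 : ℝ) < F.card := by exact_mod_cast h0
    have h5 : (F.card : ℝ) ^ 2 * (CA * X ^ (-cK)) ≤ (F.card : ℝ) ^ 2 * (1 / 8) :=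
      mul_le_mul_of_nonneg_left hsmall (by positivity)
    have h6 : (F.card : ℝ) * F.card ≤ F.card * (8 * CA * (6 + 12 / κ ^ 2) * Y) := by
      nlinarith
    exact le_of_mul_le_mul_left h6 hR

end Pool.Agent.Helper12.MV
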